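import Pool.Agent.H95.FG.Defs

/-!
# MP_ce7760, crew FG (helper95): the parts R1, R2
-/

set_option autoImplicit false

open MvPolynomial

namespace H96.FG

open H95.FG

theorem eval_cv_cj {n : ℕ} (f : MvPolynomial (Fin n) ℂ) (w : Fin n → ℂ) :
    eval (cv w) (cj f) = (starRingEnd ℂ) (eval w f) := by
  unfold cj
  rw [eval_map]
  exact (eval₂_comp_left (starRingEnd ℂ) (RingHom.id ℂ) w f).symm

/-- Gram determinants -/
theorem gram_ne {N m : ℕ} (u : Fin N → (Fin m → ℂ)) (hu : LinearIndependent ℂ u) :
    (Matrix.of fun a b : Fin N => ∑ j, u a j * (starRingEnd ℂ) (u b j)).det ≠ 0 := by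
  intro h0
  obtain ⟨x, hx0, hx⟩ := Matrix.exists_vecMul_eq_zero_iff.mpr h0
  apply hx0
  have h1 : ∑ j, (∑ a, x a * u a j) * (starRingEnd ℂ) (∑ a, x a * u a j) = 0 := by
    have h2 : ∀ b, ∑ a, x a * ∑ j, u a j * (starRingEnd ℂ) (u b j) = 0 := fun b => by
      have := congrFun hx b
      simpa [Matrix.vecMul, dotProduct] using this
    have h3 : ∑ j, (∑ a, x a * u a j) * (starRingEnd ℂ) (∑ a, x a * u a j) =
        ∑ b, (starRingEnd ℂ) (x b) * ∑ a, x a * ∑ j, u a j * (starRingEnd ℂ) (u b j) := by
      simp only [map_sum, map_mul, Finset.mul_sum, Finset.sum_mul]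
      rw [Finset.sum_comm]
      refine Finset.sum_congr rfl fun b _ => ?_
      rw [Finset.sum_comm]
      refine Finset.sum_congr rfl fun a _ => ?_
      refine Finset.sum_congr rfl fun j _ => ?_
      ring
    rw [h3]
    exact Finset.sum_eq_zero fun b _ => by rw [h2 b, mul_zero]
  have h4 : ∀ j, ∑ a, x a * u a j = 0 := by
    intro j
    have h5 : ((∑ j, ‖∑ a, x a * u a j‖ ^ 2 : ℝ) : ℂ) = 0 := by
      rw [← h1]
      push_cast
      refine Finset.sum_congr rfl fun j _ => ?_
      rw [Complex.mul_conj, Complex.normSq_eq_norm_sq]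
      push_cast
      ring
    have h6 : ∑ j, ‖∑ a, x a * u a j‖ ^ 2 = (0 : ℝ) := by exact_mod_cast h5
    have h7 := (Finset.sum_eq_zero_iff_of_nonneg (fun j _ => by positivity)).mp h6 j (Finset.mem_univ j)
    have h8 : ‖∑ a, x a * u a j‖ = 0 := by
      exact pow_eq_zero_iff (two_ne_zero) |>.mp h7
    exact norm_eq_zero.mp h8
  have h5 := Fintype.linearIndependent_iff.mp hu x (by
    ext j
    simpa using h4 j)
  ext a
  exact h5 a

/-- the block of a matrix from `UNI` is a Gram matrix -/
theorem block_ne {n m N : ℕ} (p : Fin m → MvPolynomial (Fin n) ℂ) (Z : Matrix (Fin n) (Fin n) ℂ)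
    (γ : ℂ) (hZ : ∀ x : Fin n → ℂ, γ • (Z.adjugate.transpose.mulVec (cv x)) = cv (Z.mulVec x))
    (c : Fin N → (Fin n → ℂ)) (hc : LinearIndependent ℂ (fun a => ev p (Z.mulVec (c a)))) :
    (Matrix.of (fun a b : Fin N =>
      KK p (Z.mulVec (c a)) (γ • (Z.adjugate.transpose.mulVec (cv (c b)))))).det ≠ 0 := by
  have h := gram_ne _ hc
  have e : (Matrix.of (fun a b : Fin N =>
      KK p (Z.mulVec (c a)) (γ • (Z.adjugate.transpose.mulVec (cv (c b)))))) =
      Matrix.of fun a b : Fin N => ∑ j, ev p (Z.mulVec (c a)) j *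
        (starRingEnd ℂ) (ev p (Z.mulVec (c b)) j) := by
    ext a b
    simp only [Matrix.of_apply]
    rw [hZ]
    unfold KK ev
    refine Finset.sum_congr rfl fun j _ => ?_
    rw [eval_cv_cj]
  rw [e]
  exact h

/-- a unitary matrix with a prescribed column -/
theorem one_col (hUNI : S_UNI) {n : ℕ} (k : Fin n) (z : Fin n → ℂ) (hz : z ≠ 0) :
    ∃ (Z : Matrix (Fin n) (Fin n) ℂ) (γ ρ : ℂ), (∀ i, Z i k * ρ = z i) ∧
      ∀ x : Fin n → ℂ, γ • (Z.adjugate.transpose.mulVec (cv x)) = cv (Z.mulVec x) := by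
  let ze : EuclideanSpace ℂ (Fin n) := WithLp.toLp 2 z
  have hze : ze ≠ 0 := by
    intro h
    apply hz
    ext i
    have := congrArg (fun w : EuclideanSpace ℂ (Fin n) => w i) h
    simpa [ze] using this
  have hn : ‖ze‖ ≠ 0 := norm_ne_zero_iff.mpr hze
  have hort : Orthonormal ℂ (fun _ : Fin 1 => ((‖ze‖ : ℂ)⁻¹) • ze) := by
    constructor
    · intro _
      rw [norm_smul, norm_inv]
      simp [hn]
    · intro i j hij
      exact absurd (Subsingleton.elim i j) hij
  obtain ⟨Z, γ, h1, h2⟩ := hUNI n 1 (fun _ => k) (fun i j _ => Subsingleton.elim i j) _ hort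
  refine ⟨Z, γ, (‖ze‖ : ℂ), fun i => ?_, h2⟩
  rw [h1 0 i]
  have hn' : (‖ze‖ : ℂ) ≠ 0 := by exact_mod_cast hn
  have : (((‖ze‖ : ℂ)⁻¹) • ze) i = ((‖ze‖ : ℂ)⁻¹) * z i := rfl
  rw [this]
  field_simp

theorem t_R1 (hBLK : S_BLK) (hUNI : S_UNI) : S_R1 := by
  intro n m p A hS hm z s i j
  by_contra hne
  have hz : z ≠ 0 := by
    rintro rfl
    apply hne
    rw [smul_zero]
    ring
  have hli : LinearIndependent ℂ ![ev p (s • z), ev p z] := by
    rw [LinearIndependent.pair_iff]
    intro a b hab
    have hi := congrFun hab i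
    have hj := congrFun hab j
    simp only [Pi.add_apply, Pi.smul_apply, smul_eq_mul, Pi.zero_apply, ev] at hi hj
    have hne' : eval (s • z) (p i) * eval z (p j) - eval (s • z) (p j) * eval z (p i) ≠ 0 :=
      sub_ne_zero.mpr hne
    constructor
    · have : a * (eval (s • z) (p i) * eval z (p j) - eval (s • z) (p j) * eval z (p i)) = 0 := by
        linear_combination eval z (p j) * hi - eval z (p i) * hj
      exact (mul_eq_zero.mp this).resolve_right hne'
    · have : b * (eval (s • z) (p i) * eval z (p j) - eval (s • z) (p j) * eval z (p i)) = 0 := by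
        linear_combination eval (s • z) (p i) * hj - eval (s • z) (p j) * hi
      exact (mul_eq_zero.mp this).resolve_right hne'
  choose Z γ ρ h1 h2 using fun k : Fin n => one_col hUNI k z hz
  have hle := hBLK n m p A hS n (fun _ => 2)
    (fun g a => Pi.single g (![s * ρ g, ρ g] a)) (by
      intro g g' hg a b
      refine Finset.sum_eq_zero fun k _ => ?_
      by_cases hk : k = g
      · subst hk
        rw [Pi.single_eq_of_ne hg]
        simp
      · rw [Pi.single_eq_of_ne hk, zero_mul])
    (by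
      intro g
      refine ⟨Z g, γ g, block_ne p (Z g) (γ g) (h2 g) _ ?_⟩
      have e : (fun a : Fin 2 => ev p ((Z g).mulVec (Pi.single g (![s * ρ g, ρ g] a)))) =
          ![ev p (s • z), ev p z] := by
        ext a l
        fin_cases a
        · simp only [Fin.zero_eta, Matrix.cons_val_zero]
          congr 2
          ext k
          simp only [Matrix.mulVec, dotProduct, Pi.single_apply, mul_ite, mul_zero,
            Finset.sum_ite_eq', Finset.mem_univ, if_true, Pi.smul_apply, smul_eq_mul]
          rw [← h1 g k]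
          ring
        · simp only [Fin.mk_one, Matrix.cons_val_one]
          congr 2
          ext k
          simp only [Matrix.mulVec, dotProduct, Pi.single_apply, mul_ite, mul_zero,
            Finset.sum_ite_eq', Finset.mem_univ, if_true]
          rw [← h1 g k]
          rfl
      rw [e]
      exact hli)
  simp at hle
  omega

/-- a plane containing two vectors -/
theorem exists_plane {n : ℕ} (hn : 2 ≤ n) (a b : EuclideanSpace ℂ (Fin n)) :
    ∃ v : Fin 2 → EuclideanSpace ℂ (Fin n), Orthonormal ℂ v ∧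
      a ∈ Submodule.span ℂ (Set.range v) ∧ b ∈ Submodule.span ℂ (Set.range v) := by
  classical
  let W : Submodule ℂ (EuclideanSpace ℂ (Fin n)) := Submodule.span ℂ (Set.range ![a, b])
  have hd : Module.finrank ℂ W ≤ 2 := by
    have := finrank_range_le_card (R := ℂ) ![a, b]
    exact this
  let B := stdOrthonormalBasis ℂ W
  let f : Fin n → EuclideanSpace ℂ (Fin n) := fun i =>
    if h : i.val < Module.finrank ℂ W then (B ⟨i.val, h⟩ : EuclideanSpace ℂ (Fin n)) else 0
  let s : Set (Fin n) := {i | i.val < Module.finrank ℂ W}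
  have hf : Orthonormal ℂ (s.domRestrict f) := by
    have h1 : Orthonormal ℂ (fun i : s => (B ⟨i.1.val, i.2⟩ : EuclideanSpace ℂ (Fin n))) := by
      have h2 : Orthonormal ℂ (fun i => (B i : EuclideanSpace ℂ (Fin n))) :=
        B.orthonormal.comp_linearIsometry W.subtypeₗᵢ
      refine h2.comp (fun i : s => (⟨i.1.val, i.2⟩ : Fin (Module.finrank ℂ W))) ?_
      intro i j hij
      have := congrArg Fin.val hij
      exact Subtype.ext (Fin.ext this)
    convert h1 using 1
    funext i
    have hi : i.1.val < Module.finrank ℂ W := i.2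
    change f i.1 = _
    simp only [f, dif_pos hi]
  obtain ⟨b', hb'⟩ := hf.exists_orthonormalBasis_extension_of_card_eq (by simp)
  have hB : ∀ i : Fin (Module.finrank ℂ W), (B i : EuclideanSpace ℂ (Fin n)) ∈
      Submodule.span ℂ (Set.range fun i : Fin 2 => b' ⟨i.val, by omega⟩) := by
    intro i
    have hi : i.val < n := by omega
    have h1 := hb' ⟨i.val, hi⟩ i.2
    simp only [f, dif_pos i.2] at h1
    rw [← h1]
    exact Submodule.subset_span ⟨⟨i.val, by omega⟩, rfl⟩
  have hW : ∀ w ∈ W, w ∈ Submodule.span ℂ (Set.range fun i : Fin 2 => b' ⟨i.val, by omega⟩) := by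
    intro w hw
    have h1 := B.sum_repr ⟨w, hw⟩
    have h2 := congrArg (fun x : W => (x : EuclideanSpace ℂ (Fin n))) h1
    simp only [Submodule.coe_sum, Submodule.coe_smul] at h2
    rw [← h2]
    exact Submodule.sum_mem _ fun i _ => Submodule.smul_mem _ _ (hB i)
  refine ⟨fun i => b' ⟨i.val, by omega⟩, ?_, ?_, ?_⟩
  · refine b'.orthonormal.comp _ ?_
    intro i j hij
    simp only [Fin.mk.injEq] at hij
    exact Fin.ext hij
  · exact hW a (Submodule.subset_span ⟨0, rfl⟩)
  · exact hW b (Submodule.subset_span ⟨1, rfl⟩)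

theorem li_four {n m : ℕ} (p : Fin m → MvPolynomial (Fin n) ℂ) (w : Fin 4 → (Fin n → ℂ))
    (h : LinearIndependent ℂ (fun i => ev p (w i))) (W : ℕ → (Fin n → ℂ))
    (hW : ∀ i : Fin 4, W i.val = w i) (N : ℕ) (hN : N = 4) :
    LinearIndependent ℂ (fun i : Fin N => ev p (W i.val)) := by
  subst hN
  simpa only [hW] using h

theorem li_one {m : ℕ} (u : Fin m → ℂ) (hu : u ≠ 0) (N : ℕ) (hN : N = 1) :
    LinearIndependent ℂ (fun _ : Fin N => u) := by
  subst hN
  exact LinearIndependent.of_subsingleton 0 hu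

theorem t_R2 (hBLK : S_BLK) (hUNI : S_UNI) : S_R2 := by
  intro n m p A hS hn hm a b s t hli
  -- the four points in orthonormal coordinates
  obtain ⟨v, hv, ha, hb⟩ := exists_plane hn (WithLp.toLp 2 a) (WithLp.toLp 2 b)
  have hcoord : ∀ c : EuclideanSpace ℂ (Fin n), c ∈ Submodule.span ℂ (Set.range v) →
      ∃ x y : ℂ, ∀ k, c k = x * v 0 k + y * v 1 k := by
    intro c hc
    obtain ⟨f, hf⟩ := (Submodule.mem_span_range_iff_exists_fun ℂ).mp hc
    refine ⟨f 0, f 1, fun k => ?_⟩
    rw [← hf, Fin.sum_univ_two]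
    rfl
  obtain ⟨xa, ya, hxa⟩ := hcoord _ ha
  obtain ⟨xb, yb, hxb⟩ := hcoord _ hb
  let w : Fin 4 → (Fin n → ℂ) := fun i => s i • a + t i • b
  let W : ℕ → (Fin n → ℂ) := fun i => if h : i < 4 then w ⟨i, h⟩ else 0
  let xs : ℕ → ℂ := fun i => if h : i < 4 then s ⟨i, h⟩ * xa + t ⟨i, h⟩ * xb else 0
  let ys : ℕ → ℂ := fun i => if h : i < 4 then s ⟨i, h⟩ * ya + t ⟨i, h⟩ * yb else 0
  have hWw : ∀ i : Fin 4, W i.val = w i := fun i => by simp only [W, dif_pos i.2]
  have hWc : ∀ (i : ℕ) (k : Fin n), W i k = xs i * v 0 k + ys i * v 1 k := by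
    intro i k
    by_cases h : i < 4
    · simp only [W, xs, ys, dif_pos h, w, Pi.add_apply, Pi.smul_apply, smul_eq_mul]
      have e1 : a k = xa * v 0 k + ya * v 1 k := hxa k
      have e2 : b k = xb * v 0 k + yb * v 1 k := hxb k
      rw [e1, e2]
      ring
    · simp only [W, xs, ys, dif_neg h, Pi.zero_apply]
      ring
  -- a nonzero point with nonzero value
  obtain ⟨z, hz, hpz⟩ : ∃ z : Fin n → ℂ, z ≠ 0 ∧ ev p z ≠ 0 := by
    by_cases h0 : w 0 = 0
    · refine ⟨w 1, ?_, hli.ne_zero 1⟩
      intro h1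
      have : ev p (w 0) = ev p (w 1) := by rw [h0, h1]
      have h2 := hli.injective this
      exact absurd h2 (by decide)
    · exact ⟨w 0, h0, hli.ne_zero 0⟩
  choose Zf γf ρf g1 g2 using fun k : Fin n => one_col hUNI k z hz
  have h2g : ∀ g : Fin (n / 2 + n % 2), 2 * g.val < n := fun g => by omega
  let k0 : Fin (n / 2 + n % 2) → Fin n := fun g => ⟨2 * g.val, h2g g⟩
  let c : (g : Fin (n / 2 + n % 2)) → Fin (if g.val < n / 2 then 4 else 1) → (Fin n → ℂ) :=
    fun g a k => if g.val < n / 2 then (if k.val = 2 * g.val then xs a.val else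
      if k.val = 2 * g.val + 1 then ys a.val else 0) else
      (if k.val = 2 * g.val then ρf (k0 g) else 0)
  have hsupp : ∀ g a (k : Fin n), ¬ (k.val = 2 * g.val ∨ k.val = 2 * g.val + 1) → c g a k = 0 := by
    intro g a k hk
    push Not at hk
    simp only [c, if_neg hk.1, if_neg hk.2, ite_self]
  have hle := hBLK n m p A hS (n / 2 + n % 2) (fun g => if g.val < n / 2 then 4 else 1) c (by
      intro g g' hg a b
      have hg' : g.val ≠ g'.val := fun h => hg (Fin.ext h)
      refine Finset.sum_eq_zero fun k _ => ?_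
      by_cases hk : k.val = 2 * g.val ∨ k.val = 2 * g.val + 1
      · rw [hsupp g' b k (by omega)]
        simp
      · rw [hsupp g a k hk, zero_mul])
    (by
      intro g
      by_cases hg : g.val < n / 2
      · have hg1 : 2 * g.val + 1 < n := by omega
        obtain ⟨Z, γ, c1, c2⟩ := hUNI n 2 ![⟨2 * g.val, h2g g⟩, ⟨2 * g.val + 1, hg1⟩] (by
          intro i j hij
          fin_cases i <;> fin_cases j <;> simp at hij ⊢) v hv
        refine ⟨Z, γ, block_ne p Z γ c2 _ ?_⟩
        have e : (fun a => ev p (Z.mulVec (c g a))) =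
            fun a : Fin (if g.val < n / 2 then 4 else 1) => ev p (W a.val) := by
          funext a
          congr 1
          ext k
          rw [hWc]
          have e1 : Z k ⟨2 * g.val, h2g g⟩ = v 0 k := c1 0 k
          have e2 : Z k ⟨2 * g.val + 1, hg1⟩ = v 1 k := c1 1 k
          simp only [Matrix.mulVec, dotProduct, c, if_pos hg]
          rw [Finset.sum_eq_add (⟨2 * g.val, h2g g⟩ : Fin n) ⟨2 * g.val + 1, hg1⟩]
          · rw [e1, e2]
            simp
            ring
          · intro h
            simp at h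
          · intro l _ hl
            have h3 : l.val ≠ 2 * g.val := fun h => hl.1 (Fin.ext h)
            have h4 : l.val ≠ 2 * g.val + 1 := fun h => hl.2 (Fin.ext h)
            rw [if_neg h3, if_neg h4, mul_zero]
          · intro h
            exact absurd (Finset.mem_univ _) h
          · intro h
            exact absurd (Finset.mem_univ _) h
        rw [e]
        exact li_four p w hli W hWw _ (if_pos hg)
      · refine ⟨Zf (k0 g), γf (k0 g), block_ne p _ _ (g2 (k0 g)) _ ?_⟩
        have e : (fun a => ev p ((Zf (k0 g)).mulVec (c g a))) =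
            fun _ : Fin (if g.val < n / 2 then 4 else 1) => ev p z := by
          funext a
          congr 1
          ext k
          simp only [Matrix.mulVec, dotProduct, c, if_neg hg]
          rw [Finset.sum_eq_single (k0 g)]
          · rw [if_pos rfl]
            exact g1 (k0 g) k
          · intro l _ hl
            have h3 : l.val ≠ 2 * g.val := fun h => hl (Fin.ext h)
            rw [if_neg h3, mul_zero]
          · intro h
            exact absurd (Finset.mem_univ _) h
        rw [e]
        exact li_one _ hpz _ (if_neg hg))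
  have hsum : ∀ q e : ℕ, ∑ g ∈ Finset.range (q + e), (if g < q then 4 else 1) = 4 * q + e := by
    intro q e
    induction e with
    | zero =>
      rw [add_zero, add_zero, Finset.sum_congr rfl (g := fun _ => 4)
        (fun g hg => if_pos (Finset.mem_range.mp hg))]
      simp [mul_comm]
    | succ e ih =>
      rw [← add_assoc, Finset.sum_range_succ, ih, if_neg (by omega)]
      ring
  rw [Fin.sum_univ_eq_sum_range (fun g => if g < n / 2 then 4 else 1), hsum] at hle
  omega

end H96.FG
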