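import Pool.Agent.H95.FG.Defs

/-!
# MP_ce7760, crew FG (helper95): the parts BLK, R1, R2
-/

set_option autoImplicit false

open MvPolynomial

namespace H96.FG

open H95.FG

theorem KK_eq {n m : ℕ} (p : Fin m → MvPolynomial (Fin n) ℂ) (A : MvPolynomial (Fin n ⊕ Fin n) ℂ)
    (h : Sys n m p A) (z Y : Fin n → ℂ) : KK p z Y = (∑ k, z k * Y k) * AA A z Y := by
  have h1 := congrArg (eval (Sum.elim z Y)) h.2
  simp only [map_sum, map_mul, eval_rename, eval_X, Sum.elim_inl, Sum.elim_inr,
    Sum.elim_comp_inl, Sum.elim_comp_inr] at h1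
  exact h1

/-- generic matrix -/
noncomputable def Zg (n : ℕ) : Matrix (Fin n) (Fin n) (MvPolynomial ((Fin n × Fin n) ⊕ Unit) ℂ) :=
  Matrix.of fun i j => X (Sum.inl (i, j))

/-- generic entry -/
noncomputable def En {n m : ℕ} (p : Fin m → MvPolynomial (Fin n) ℂ) (c c' : Fin n → ℂ) :
    MvPolynomial ((Fin n × Fin n) ⊕ Unit) ℂ :=
  ∑ j, bind₁ (fun k => (Zg n).mulVec (fun i => C (c i)) k) (p j) *
    bind₁ (fun k => X (Sum.inr ()) *
      ((Zg n).adjugate.transpose.mulVec (fun i => C (c' i))) k) (cj (p j))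

theorem eval_En {n m : ℕ} (p : Fin m → MvPolynomial (Fin n) ℂ) (c c' : Fin n → ℂ)
    (pt : (Fin n × Fin n) ⊕ Unit → ℂ) (Z : Matrix (Fin n) (Fin n) ℂ) (γ : ℂ)
    (hZ : ∀ i j, Z i j = pt (Sum.inl (i, j))) (hγ : γ = pt (Sum.inr ())) :
    eval pt (En p c c') = KK p (Z.mulVec c) (γ • (Z.adjugate.transpose.mulVec c')) := by
  have key : ∀ (v : Fin n → MvPolynomial ((Fin n × Fin n) ⊕ Unit) ℂ) (q : MvPolynomial (Fin n) ℂ),
      eval pt (bind₁ v q) = eval (fun k => eval pt (v k)) q :=
    fun v q => eval₂Hom_bind₁ _ _ _ _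
  have hZm : (eval pt).mapMatrix (Zg n) = Z := by
    ext i j
    simp [Zg, hZ]
  have hadj : ∀ i j, eval pt ((Zg n).adjugate i j) = Z.adjugate i j := by
    intro i j
    have h := (eval pt).map_adjugate (Zg n)
    rw [hZm] at h
    have h2 := congrArg (fun M => M i j) h
    simpa using h2
  unfold En KK
  rw [map_sum]
  refine Finset.sum_congr rfl fun j _ => ?_
  rw [map_mul, key, key]
  congr 2
  · congr 1
    ext k
    simp only [Matrix.mulVec, dotProduct, map_sum, map_mul, eval_C, Zg, Matrix.of_apply, eval_X, hZ]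
  · congr 1
    ext k
    simp only [Matrix.mulVec, dotProduct, map_sum, map_mul, eval_C, eval_X, Matrix.transpose_apply,
      hadj, hγ, Pi.smul_apply, smul_eq_mul]

theorem dot_zero {n : ℕ} (Z : Matrix (Fin n) (Fin n) ℂ) (γ : ℂ) (c d : Fin n → ℂ)
    (h : ∑ k, c k * d k = 0) :
    ∑ k, (Z.mulVec c) k * (γ • (Z.adjugate.transpose.mulVec d)) k = 0 := by
  have h1 : ∑ k, (Z.mulVec c) k * (γ • (Z.adjugate.transpose.mulVec d)) k =
      γ * ((Z.mulVec c) ⬝ᵥ (Z.adjugate.transpose.mulVec d)) := by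
    rw [dotProduct, Finset.mul_sum]
    refine Finset.sum_congr rfl fun k _ => ?_
    rw [Pi.smul_apply, smul_eq_mul]
    ring
  have h2 : (Z.mulVec c) ⬝ᵥ (Z.adjugate.transpose.mulVec d) = Z.det * (c ⬝ᵥ d) := by
    rw [Matrix.dotProduct_mulVec, Matrix.vecMul_transpose, Matrix.mulVec_mulVec,
      Matrix.adjugate_mul, Matrix.smul_mulVec, Matrix.one_mulVec, smul_dotProduct, smul_eq_mul]
  rw [h1, h2, dotProduct, h, mul_zero, mul_zero]

theorem t_BLK : S_BLK := by
  intro n m p A hS r N c horth hblk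
  classical
  -- the generic block determinants
  let F : Fin r → MvPolynomial ((Fin n × Fin n) ⊕ Unit) ℂ := fun g =>
    (Matrix.of fun a b : Fin (N g) => En p (c g a) (cv (c g b))).det
  have hev : ∀ (g : Fin r) (pt : (Fin n × Fin n) ⊕ Unit → ℂ) (Z : Matrix (Fin n) (Fin n) ℂ) (γ : ℂ),
      (∀ i j, Z i j = pt (Sum.inl (i, j))) → γ = pt (Sum.inr ()) →
      eval pt (F g) = (Matrix.of (fun a b : Fin (N g) =>
        KK p (Z.mulVec (c g a)) (γ • (Z.adjugate.transpose.mulVec (cv (c g b)))))).det := by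
    intro g pt Z γ hZ hγ
    change eval pt (Matrix.det _) = _
    rw [RingHom.map_det]
    congr 1
    ext a b
    simp only [RingHom.mapMatrix_apply, Matrix.map_apply, Matrix.of_apply]
    exact eval_En p _ _ pt Z γ hZ hγ
  have hF : ∀ g, F g ≠ 0 := by
    intro g h0
    obtain ⟨Z, γ, hdet⟩ := hblk g
    apply hdet
    rw [← hev g (Sum.elim (fun ij => Z ij.1 ij.2) (fun _ => γ)) Z γ (fun i j => rfl) rfl, h0, map_zero]
  have hprod : (∏ g, F g) ≠ 0 := Finset.prod_ne_zero_iff.mpr fun g _ => hF g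
  obtain ⟨pt, hpt⟩ : ∃ pt, eval pt (∏ g, F g) ≠ 0 := by
    by_contra hcon
    push Not at hcon
    apply hprod
    apply MvPolynomial.funext
    intro pt
    rw [hcon pt, map_zero]
  rw [map_prod] at hpt
  have hpt' : ∀ g, eval pt (F g) ≠ 0 := fun g => Finset.prod_ne_zero_iff.mp hpt g (Finset.mem_univ g)
  let Z : Matrix (Fin n) (Fin n) ℂ := Matrix.of fun i j => pt (Sum.inl (i, j))
  let γ : ℂ := pt (Sum.inr ())
  have hB : ∀ g, (Matrix.of (fun a b : Fin (N g) =>
        KK p (Z.mulVec (c g a)) (γ • (Z.adjugate.transpose.mulVec (cv (c g b)))))).det ≠ 0 := by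
    intro g
    rw [← hev g pt Z γ (fun i j => rfl) rfl]
    exact hpt' g
  -- the linear map
  let L : ((Σ g : Fin r, Fin (N g)) → ℂ) →ₗ[ℂ] (Fin m → ℂ) :=
    { toFun := fun x j => ∑ i, x i *
        eval (γ • (Z.adjugate.transpose.mulVec (cv (c i.1 i.2)))) (cj (p j))
      map_add' := by
        intro x y
        ext j
        simp only [Pi.add_apply, add_mul, Finset.sum_add_distrib]
      map_smul' := by
        intro s x
        ext j
        simp only [Pi.smul_apply, smul_eq_mul, RingHom.id_apply, Finset.mul_sum, mul_assoc] }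
  have hinj : Function.Injective L := by
    rw [injective_iff_map_eq_zero]
    intro x hx
    have hx' : ∀ j, ∑ i : (Σ g : Fin r, Fin (N g)), x i *
        eval (γ • (Z.adjugate.transpose.mulVec (cv (c i.1 i.2)))) (cj (p j)) = 0 :=
      fun j => congrFun hx j
    have key : ∀ (g : Fin r) (a : Fin (N g)), ∑ b : Fin (N g),
        KK p (Z.mulVec (c g a)) (γ • (Z.adjugate.transpose.mulVec (cv (c g b)))) * x ⟨g, b⟩ = 0 := by
      intro g a
      have h1 : ∑ i : (Σ g : Fin r, Fin (N g)),
          KK p (Z.mulVec (c g a)) (γ • (Z.adjugate.transpose.mulVec (cv (c i.1 i.2)))) * x i = 0 := by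
        unfold KK
        simp only [Finset.sum_mul]
        rw [Finset.sum_comm]
        refine Finset.sum_eq_zero fun j _ => ?_
        have h2 := congrArg (fun w => eval (Z.mulVec (c g a)) (p j) * w) (hx' j)
        simp only [mul_zero, Finset.mul_sum] at h2
        rw [← h2]
        refine Finset.sum_congr rfl fun i _ => ?_
        ring
      rw [Fintype.sum_sigma, Finset.sum_eq_single g] at h1
      · exact h1
      · intro g' _ hg'
        refine Finset.sum_eq_zero fun b _ => ?_
        rw [KK_eq p A hS, dot_zero, zero_mul, zero_mul]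
        have h3 := horth g g' (Ne.symm hg') a b
        simpa [cv] using h3
      · intro h
        exact absurd (Finset.mem_univ g) h
    ext ⟨g, b⟩
    have h4 : (Matrix.of (fun a b : Fin (N g) =>
        KK p (Z.mulVec (c g a)) (γ • (Z.adjugate.transpose.mulVec (cv (c g b)))))).mulVec
        (fun b => x ⟨g, b⟩) = 0 := by
      ext a
      exact key g a
    have h5 := Matrix.eq_zero_of_mulVec_eq_zero (hB g) h4
    exact congrFun h5 b
  have hle := LinearMap.finrank_le_finrank_of_injective hinj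
  simpa using hle

end H96.FG
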